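import Pool.Agent.H310.HD.Equiv
import Pool.Agent.H310.HD.Tail

/-!
# The HOD Hypothesis and covering

Let `δ` be an extendible cardinal. Equivalent to the HOD Hypothesis are covering properties of
`HOD`: for all sets of ordinals of size less than `δ`; for the countable subsets of one regular
`l > δ`; for the subsets of size less than `β` of the ordinals less than `δ`, for some `β < δ`.
Further equivalents are: for some `β < δ` all ordinals between `β` and `δ` of cofinality `ω` are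
singular in `HOD`; stationary many `γ < δ` are singular in `HOD`; for one regular `l > δ` stationary
many `γ < l` of cofinality less than `δ` are singular in `HOD`; for all regular `l > δ` every
ordinal definable stationary set of points of cofinality less than `δ` has partitions in `HOD` into
any number `k ≤ l` of stationary sets.
-/

set_option autoImplicit false

namespace Pool.Agent.Results.MP_fd273a_lc.CoveringForms

open Pool.Agent.H310.HD Gss969 ZFSet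

universe u

/-- The HOD Hypothesis. -/
def HODHypothesis (b : Bool) : Prop := ∀ β : Ordinal.{u}, ∃ l > β, NotStrMeas b l

/-- The class of the `γ < l` of cofinality less than `δ` which are singular in `HOD` is
stationary in `l`. -/
def ManySing (δ l : Ordinal.{u}) : Prop :=
  StatL {γ | (∃ μ < δ, CofN (Ordinal.toZFSet μ) γ.toZFSet) ∧ CofinalP HOD γ.toZFSet} l

/-- Every ordinal definable set `A` which contains stationary many `γ < l` of cofinality less than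
`δ` has, for all `0 < k ≤ l`, a partition in `HOD` of `A ∩ l` into `k` stationary subsets of `l`. -/
def Splits (δ l : Ordinal.{u}) : Prop :=
  ∀ A, OD A → StatL {γ | γ.toZFSet ∈ A ∧ ∃ μ < δ, CofN (Ordinal.toZFSet μ) γ.toZFSet} l →
    ∀ k : Ordinal.{u}, 0 < k → k ≤ l → ∃ g, HOD g ∧ PartOf A k.toZFSet l.toZFSet g

theorem result (b : Bool) (δ : Ordinal.{u}) (hδ : Extendible δ) :
    List.TFAE [HODHypothesis.{u} b,
      ∀ α : Ordinal.{u}, ∀ m < δ, Cov δ α m,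
      ∃ l > δ, RegUnc (Ordinal.toZFSet l) ∧ Cov δ l Ordinal.omega0,
      ∃ β < δ, Ordinal.omega0 < β ∧ ∀ α < δ, ∀ m < β, Cov β α m,
      ∃ β < δ, ∀ γ < δ, β < γ → CofOm γ.toZFSet → CofinalP HOD γ.toZFSet,
      StatL {γ | CofinalP HOD γ.toZFSet} δ,
      ∃ l > δ, RegUnc (Ordinal.toZFSet l) ∧ ManySing δ l,
      ∀ l > δ, RegUnc (Ordinal.toZFSet l) → Splits δ l] := by
  have hup : ∀ l ≥ δ, NotStrMeas b l → HODHypothesis.{u} b := by
    intro l hl hn β
    obtain ⟨l', h1, h2⟩ := hδ.above (mono_Index b) hl ((notStrMeas_iff b l).1 hn) β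
    exact ⟨l', h1, (notStrMeas_iff b l').2 h2⟩
  have hfam : HODHypothesis.{u} b → ∀ k₀ : Ordinal.{u}, ∃ k ≥ k₀, ∃ l > k,
      RegUnc (Ordinal.toZFSet l) ∧ ∃ S, HOD S ∧ Fam om k.toZFSet l.toZFSet S := by
    intro h k₀
    exact fam_of_nonSM (b := b) (fun β => by
      obtain ⟨l, hl, h1⟩ := h β
      exact ⟨l, hl, (notStrMeas_iff b l).1 h1⟩) k₀
  -- covering of the countable subsets of `l > δ`
  have hcov : ∀ l > δ, RegUnc (Ordinal.toZFSet l) →
      (∀ γ < l, δ < γ → CofOm γ.toZFSet → Cov δ γ Ordinal.omega0) → HODHypothesis.{u} b := by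
    intro l hl hr h
    refine hup l hl.le (notStrMeas_of_sing b hr ?_)
    intro C hC1 hC2
    obtain ⟨γ, h1, h2, h3⟩ := statL_om hr hl C hC1 hC2
    exact ⟨γ, h1, ⟨h2.2, sing_of_cov h2.1.le (h γ h1 h2.1 h2.2) h2.2⟩, h3⟩
  tfae_have 1 → 2 := by
    intro h α m hm
    obtain ⟨k, hk, l, _, hr, S, hS, hF⟩ := hfam h α
    exact cov_of_fam hδ hk hδ.om_lt hr hS hF hm
  tfae_have 2 → 3 := by
    intro h
    obtain ⟨l, hl, hr⟩ := exists_regUnc δ
    exact ⟨l, hl, hr, h l _ hδ.om_lt⟩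
  tfae_have 3 → 7 := by
    rintro ⟨l, hl, hr, h⟩
    refine ⟨l, hl, hr, ?_⟩
    intro C hC1 hC2
    obtain ⟨γ, h1, h2, h3⟩ := statL_om hr hl C hC1 hC2
    exact ⟨γ, h1, ⟨⟨Ordinal.omega0, hδ.om_lt, h2.2⟩,
      sing_of_cov h2.1.le (h.down h1.le (bot_le.trans_lt h2.1)) h2.2⟩, h3⟩
  tfae_have 7 → 1 := by
    rintro ⟨l, hl, hr, h⟩
    obtain ⟨μ, hμ, h1⟩ := StatL.union hr h hl (P := fun μ γ => CofN μ.toZFSet γ.toZFSet)
      fun γ hγ _ => hγ.1
    obtain ⟨S, hS, hF⟩ := fam_of_sing hr (h1.mono fun γ _ h2 => ⟨h2.2, h2.1.2⟩)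
      (bot_le.trans_lt hl) le_rfl
    exact hcov l hl hr fun γ hγ _ _ => cov_of_fam hδ hγ.le hμ hr hS hF hδ.om_lt
  tfae_have 1 → 4 := by
    intro h
    obtain ⟨k, hk, l, _, hr, S, hS, hF⟩ := hfam h (Order.succ δ)
    exact tail_cov hδ ((Order.lt_succ δ).trans_le hk) hδ.om_lt hr hS hF
  tfae_have 4 → 5 := by
    rintro ⟨β, hβ, hω, h⟩
    exact ⟨β, hβ, fun γ hγ h1 h2 => sing_of_cov h1.le (h γ hγ _ hω) h2⟩
  tfae_have 5 → 6 := by
    rintro ⟨β, hβ, h⟩
    intro C hC1 hC2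
    obtain ⟨γ, h1, h2, h3⟩ := statL_om hδ.regUnc hβ C hC1 hC2
    exact ⟨γ, h1, h γ h1 h2.1 h2.2, h3⟩
  tfae_have 6 → 1 := by
    intro h
    have h1 : ∀ γ : Ordinal.{u}, CofinalP HOD γ.toZFSet → ∃ ν < γ, CofN ν.toZFSet γ.toZFSet := by
      rintro γ ⟨a, ha, g, _, hg⟩
      obtain ⟨ν, hν, rfl⟩ := Ordinal.mem_toZFSet_iff.1 ha
      exact ⟨ν, hν, g, hg⟩
    choose! f hf1 hf2 using h1
    obtain ⟨μ, hμ, h2⟩ := fodor hδ.regUnc h (f := f) fun γ hγ _ => hf1 γ hγ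
    obtain ⟨S, hS, hF⟩ := fam_of_sing hδ.regUnc (μ := μ) (h2.mono fun γ _ h3 => by
      refine ⟨?_, h3.1⟩
      have := hf2 γ h3.1
      rwa [h3.2] at this) (bot_le.trans_lt hδ.om_lt) le_rfl
    obtain ⟨τ, hτ, hr, S', hS', hF'⟩ := fam_up hδ hμ hS hF
    exact hcov τ hτ hr fun γ hγ _ _ => cov_of_fam hδ hγ.le hμ hr hS' hF' hδ.om_lt
  tfae_have 2 → 8 := by
    intro h l hl hr A hA hst k hk0 hk
    refine split_OD hr hA ?_ hk0 hk
    refine (hst.tail hr hl).mono fun γ _ h1 => ⟨h1.1.1, ?_⟩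
    obtain ⟨μ, hμ, h2⟩ := h1.1.2
    exact sing_of_cov h1.2.le (h γ μ hμ) h2
  tfae_have 8 → 1 := by
    intro h
    obtain ⟨l, hl, hr⟩ := exists_regUnc δ
    refine hup l hl.le ⟨hr, ?_⟩
    rintro ⟨_, k, hk, hi, _, hn⟩
    obtain ⟨k, hk', rfl⟩ := Ordinal.mem_toZFSet_iff.1 hk
    refine hn ?_
    obtain ⟨g, hg, h1, h2, h3, h4⟩ := h l hl hr _ (OD_cof Ordinal.omega0 l)
      ((statL_om hr hl).mono fun γ hγ h2 =>
        ⟨mem_sep.2 ⟨tz_mem.2 hγ, h2.2⟩, Ordinal.omega0, hδ.om_lt, h2.2⟩) k (by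
        obtain ⟨⟨x, hx, _⟩, _⟩ := hi
        obtain ⟨β, hβ, _⟩ := Ordinal.mem_toZFSet_iff.1 hx
        exact bot_le.trans_lt hβ) hk'.le
    refine ⟨g, hg, h1, h2, h3, fun a ha => ?_⟩
    rw [← h4 a ha, mem_sep]
    exact ⟨fun h5 => ⟨ha, h5⟩, fun h5 => h5.2⟩
  tfae_finish

end Pool.Agent.Results.MP_fd273a_lc.CoveringForms
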