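import Pool.Agent.H310.HD.Short

/-!
# A dichotomy for partitions into stationary sets

Let `δ` be an extendible cardinal. Either for all regular `l > δ` and `0 < k ≤ l` there is in `HOD`
a partition of `cof(ω) ∩ l` into `k` stationary sets, or there is one regular uncountable `κ < δ`
such that for no regular uncountable `l` whatsoever there is in `HOD` a partition of `cof(ω) ∩ l`
into `κ` stationary sets. The first alternative is equivalent to the HOD Hypothesis; in the second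
one all regular `l ≥ δ` are `ω`-strongly measurable in `HOD`, with the same witness `κ < δ`.
-/

set_option autoImplicit false

namespace Pool.Agent.Results.MP_fd273a_lc.ShortPartitions

open Pool.Agent.H310.HD Gss969 ZFSet

universe u

/-- The HOD Hypothesis. -/
def HODHypothesis (b : Bool) : Prop := ∀ β : Ordinal.{u}, ∃ l > β, NotStrMeas b l

/-- There is in `HOD` a partition of `cof(ω) ∩ l` into `k` stationary subsets of `l`. -/
def Part (k l : Ordinal.{u}) : Prop := ∃ g, HOD g ∧ IsPart k.toZFSet l.toZFSet g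

/-- There is in `HOD` a sequence of length `k` of pairwise disjoint stationary subsets of `l`, whose
elements `a` have a cofinal function from `μ`. -/
def Disj (μ k l : Ordinal.{u}) : Prop :=
  ∃ S, HOD S ∧ Fam μ.toZFSet k.toZFSet l.toZFSet S

theorem result (b : Bool) (δ : Ordinal.{u}) (hδ : Extendible δ) :
    List.TFAE [HODHypothesis.{u} b,
      ∀ l > δ, RegUnc (Ordinal.toZFSet l) → ∀ k : Ordinal.{u}, 0 < k → k ≤ l → Part k l,
      ∀ κ < δ, RegUnc (Ordinal.toZFSet κ) → ∃ l : Ordinal.{u}, RegUnc l.toZFSet ∧ Part κ l,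
      ∃ μ < δ, ∀ κ < δ, RegUnc (Ordinal.toZFSet κ) →
        ∃ l : Ordinal.{u}, RegUnc l.toZFSet ∧ Disj μ κ l] ∧
    (¬ HODHypothesis.{u} b → ∃ κ < δ, RegUnc (Ordinal.toZFSet κ) ∧
      (∀ l : Ordinal.{u}, RegUnc l.toZFSet → ¬ Part κ l) ∧
      ∀ l ≥ δ, FewSub HOD κ.toZFSet (Ordinal.toZFSet l)) := by
  have htfae : List.TFAE [HODHypothesis.{u} b,
      ∀ l > δ, RegUnc (Ordinal.toZFSet l) → ∀ k : Ordinal.{u}, 0 < k → k ≤ l → Part k l,
      ∀ κ < δ, RegUnc (Ordinal.toZFSet κ) → ∃ l : Ordinal.{u}, RegUnc l.toZFSet ∧ Part κ l,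
      ∃ μ < δ, ∀ κ < δ, RegUnc (Ordinal.toZFSet κ) →
        ∃ l : Ordinal.{u}, RegUnc l.toZFSet ∧ Disj μ κ l] := by
    tfae_have 1 → 2 := by
      intro h l hl hr k hk0 hk
      have hsing := sing_of_fam hδ (fun k₀ => by
        obtain ⟨k, hk, l, _, hr, S, hS, hF⟩ := fam_of_nonSM (b := b) (fun β => by
          obtain ⟨l, hl, h1⟩ := h β
          exact ⟨l, hl, (notStrMeas_iff b l).1 h1⟩) k₀
        exact ⟨k, hk, Ordinal.omega0, hδ.om_lt, l, hr, S, hS, hF⟩)
      exact split_of_sing hr ((statL_om hr hl).mono fun α _ hα => ⟨hα.2, hsing α hα.1 hα.2⟩) hk0 hk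
    tfae_have 2 → 3 := by
      intro h κ hκ hr
      obtain ⟨l, hl, hr'⟩ := exists_regUnc δ
      exact ⟨l, hr', h l hl hr' κ hr.pos (hκ.trans hl).le⟩
    tfae_have 3 → 4 := by
      intro h
      refine ⟨Ordinal.omega0, hδ.om_lt, fun κ hκ hr => ?_⟩
      obtain ⟨l, hl, g, hg, hp⟩ := h κ hκ hr
      exact ⟨l, hl, g, hg, hp.fam (isOrdinal_toZFSet _)⟩
    tfae_have 4 → 1 := by
      rintro ⟨μ, hμ, h⟩
      have hsing := sing_of_fam hδ (fun k₀ => by
        obtain ⟨k, hk, hr⟩ := exists_regUnc k₀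
        obtain ⟨l, hl, S, hS, hF⟩ := fam_of_short hδ hμ h k hr
        exact ⟨k, hk.le, μ, hμ, l, hl, S, hS, hF⟩)
      intro β
      obtain ⟨l, hl, hr⟩ := exists_regUnc (max δ β)
      exact ⟨l, (le_max_right _ _).trans_lt hl, (notStrMeas_iff b l).2
        (nonSM_of_sing (fun x hx => hx) hsing ((le_max_left _ _).trans_lt hl) hr)⟩
    tfae_finish
  refine ⟨htfae, fun hno => ?_⟩
  obtain ⟨κ, hκ, hr, h4⟩ : ∃ κ < δ, RegUnc (Ordinal.toZFSet κ) ∧
      ∀ l : Ordinal.{u}, RegUnc l.toZFSet → ¬ Part κ l := by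
    by_contra hcon
    push Not at hcon
    exact hno ((htfae.out 2 0).1 hcon)
  exact ⟨κ, hκ, hr, h4, fun l hl => hδ.few hκ HOD hl⟩

end Pool.Agent.Results.MP_fd273a_lc.ShortPartitions
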